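import Pool.Agent.H43.BZ.Stm

/-!
Blow-up criterion for the non-cutoff Boltzmann equation (helper43): ERR, proved by helper401.
-/

set_option autoImplicit false

open MeasureTheory Metric Set
open scoped RealInnerProductSpace ENNReal

namespace Pool.Agent.H401.BZ

open Pool.Agent.H43.BZ

theorem part1 {s δ : ℝ} (hs1 : s < 1) (hδ : 0 < δ) :
    ∫⁻ y in Ioc 0 δ, ENNReal.ofReal (y ^ (-s)) = ENNReal.ofReal (δ ^ (1 - s) / (1 - s)) := by
  have h1 : IntervalIntegrable (fun y : ℝ => y ^ (-s)) volume 0 δ :=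
    intervalIntegral.intervalIntegrable_rpow' (by linarith)
  have h2 : IntegrableOn (fun y : ℝ => y ^ (-s)) (Ioc 0 δ) volume :=
    (intervalIntegrable_iff_integrableOn_Ioc_of_le hδ.le).1 h1
  rw [← ofReal_integral_eq_lintegral_ofReal h2]
  · rw [← intervalIntegral.integral_of_le hδ.le, integral_rpow (Or.inl (by linarith))]
    have h3 : -s + 1 = 1 - s := by ring
    rw [h3, Real.zero_rpow (by linarith), sub_zero]
  · refine (ae_restrict_iff' measurableSet_Ioc).2 (Filter.Eventually.of_forall fun y hy => ?_)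
    exact Real.rpow_nonneg hy.1.le _

theorem part2 {s δ : ℝ} (hs : 0 < s) (hδ : 0 < δ) :
    ∫⁻ y in Ioi δ, ENNReal.ofReal (y ^ (-1 - s)) = ENNReal.ofReal (δ ^ (-s) / s) := by
  have h2 : IntegrableOn (fun y : ℝ => y ^ (-1 - s)) (Ioi δ) volume :=
    integrableOn_Ioi_rpow_of_lt (by linarith) hδ
  rw [← ofReal_integral_eq_lintegral_ofReal h2]
  · rw [integral_Ioi_rpow_of_lt (by linarith) hδ]
    have h3 : -1 - s + 1 = -s := by ring
    rw [h3, neg_div_neg_eq]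
  · refine (ae_restrict_iff' measurableSet_Ioi).2 (Filter.Eventually.of_forall fun y hy => ?_)
    exact Real.rpow_nonneg (hδ.trans hy).le _

theorem part3 {s L : ℝ} (hs : 0 < s) (hs1 : s < 1) (hL : 1 ≤ L) :
    ∫⁻ y in Ioi (0 : ℝ), ENNReal.ofReal (y ^ (-1 - s) * min 1 (y * L ^ 2)) ≤
      ENNReal.ofReal ((1 / (1 - s) + 1 / s) * L ^ (2 * s)) := by
  have hL0 : 0 < L := by linarith
  obtain ⟨δ, hδ⟩ : ∃ δ : ℝ, δ = L ^ (-2 : ℝ) := ⟨_, rfl⟩
  have hδ0 : 0 < δ := by rw [hδ]; exact Real.rpow_pos_of_pos hL0 _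
  rw [← Ioc_union_Ioi_eq_Ioi hδ0.le]
  refine (lintegral_union_le _ _ _).trans ?_
  have h1 : ∫⁻ y in Ioc 0 δ, ENNReal.ofReal (y ^ (-1 - s) * min 1 (y * L ^ 2)) ≤
      ENNReal.ofReal (L ^ 2) * ∫⁻ y in Ioc 0 δ, ENNReal.ofReal (y ^ (-s)) := by
    rw [← lintegral_const_mul' _ _ ENNReal.ofReal_ne_top]
    refine setLIntegral_mono' measurableSet_Ioc fun y hy => ?_
    rw [← ENNReal.ofReal_mul (by positivity)]
    refine ENNReal.ofReal_le_ofReal ?_
    have hy0 : 0 < y := hy.1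
    have e1 : y ^ (-1 - s) * y = y ^ (-s) := by
      have h3 : (-s : ℝ) = (-1 - s) + 1 := by ring
      rw [h3, Real.rpow_add_one hy0.ne']
    calc y ^ (-1 - s) * min 1 (y * L ^ 2) ≤ y ^ (-1 - s) * (y * L ^ 2) :=
          mul_le_mul_of_nonneg_left (min_le_right _ _) (Real.rpow_nonneg hy0.le _)
      _ = (y ^ (-1 - s) * y) * L ^ 2 := by ring
      _ = L ^ 2 * y ^ (-s) := by rw [e1]; ring
  have h2 : ∫⁻ y in Ioi δ, ENNReal.ofReal (y ^ (-1 - s) * min 1 (y * L ^ 2)) ≤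
      ∫⁻ y in Ioi δ, ENNReal.ofReal (y ^ (-1 - s)) := by
    refine setLIntegral_mono' measurableSet_Ioi fun y hy => ?_
    refine ENNReal.ofReal_le_ofReal ?_
    have hy0 : 0 < y := hδ0.trans hy
    calc y ^ (-1 - s) * min 1 (y * L ^ 2) ≤ y ^ (-1 - s) * 1 :=
          mul_le_mul_of_nonneg_left (min_le_left _ _) (Real.rpow_nonneg hy0.le _)
      _ = y ^ (-1 - s) := mul_one _
  rw [part1 hs1 hδ0] at h1
  rw [part2 hs hδ0] at h2
  refine (add_le_add h1 h2).trans ?_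
  have hd1 : 0 ≤ δ ^ (1 - s) / (1 - s) :=
    div_nonneg (Real.rpow_nonneg hδ0.le _) (by linarith)
  have hd2 : 0 ≤ δ ^ (-s) / s := div_nonneg (Real.rpow_nonneg hδ0.le _) hs.le
  rw [← ENNReal.ofReal_mul (by positivity), ← ENNReal.ofReal_add (by positivity) hd2]
  refine ENNReal.ofReal_le_ofReal (le_of_eq ?_)
  have e1 : L ^ 2 * δ ^ (1 - s) = L ^ (2 * s) := by
    rw [hδ, ← Real.rpow_mul hL0.le, ← Real.rpow_natCast, ← Real.rpow_add hL0]
    congr 1
    push_cast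
    ring
  have e2 : δ ^ (-s) = L ^ (2 * s) := by
    rw [hδ, ← Real.rpow_mul hL0.le]
    congr 1
    ring
  rw [e2, ← mul_div_assoc, e1]
  ring

theorem ERR (hz : S_ZON) : S_ERR := by
  intro d hd s hs hs1
  obtain ⟨κ, hκ0, hκ1, hκ⟩ := hz d hd
  obtain ⟨p, hp⟩ : ∃ p : ℝ, p = ((d : ℝ) - 1) / 2 + s := ⟨_, rfl⟩
  obtain ⟨A, hA⟩ : ∃ A : ℝ, A = (2 : ℝ) ^ (d : ℝ) * (2 : ℝ) ^ p := ⟨_, rfl⟩
  have hA0 : 0 < A := by rw [hA]; positivity
  have hB0 : 0 ≤ 1 / (1 - s) + 1 / s := by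
    have : 0 < 1 - s := by linarith
    positivity
  refine ⟨κ.toReal * (2 * (A * (1 / (1 - s) + 1 / s))), by positivity, fun e he L hL => ?_⟩
  have hL0 : 0 < L := by linarith
  have habs : Measurable fun x : ℝ => |x| := continuous_abs.measurable
  have hmeas : Measurable fun x : ℝ => ENNReal.ofReal (((1 - |x|) / 2) ^ (-(((d : ℝ) - 1) / 2 + s)) *
      min 1 ((1 - |x|) * L ^ 2)) := by
    refine Measurable.ennreal_ofReal ?_
    refine Measurable.mul ?_ ?_
    · exact Measurable.pow_const ((measurable_const.sub habs).div_const 2) _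
    · exact measurable_const.min ((measurable_const.sub habs).mul_const _)
  rw [hκ e he _ hmeas]
  -- the pointwise bound
  let g : ℝ → ℝ≥0∞ := (Ioi (0 : ℝ)).indicator fun y =>
    ENNReal.ofReal (y ^ (-1 - s) * min 1 (y * L ^ 2))
  have hg : ∀ y : ℝ, 0 < y → g y = ENNReal.ofReal (y ^ (-1 - s) * min 1 (y * L ^ 2)) :=
    fun y hy => indicator_of_mem (mem_Ioi.2 hy) _
  have hgm : Measurable g := by
    refine Measurable.indicator ?_ measurableSet_Ioi
    refine Measurable.ennreal_ofReal ?_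
    refine Measurable.mul (Measurable.pow_const measurable_id _) ?_
    exact measurable_const.min (measurable_id.mul_const _)
  have hpt : ∀ x ∈ Ioo (-1 : ℝ) 1, ENNReal.ofReal ((1 - x ^ 2) ^ (((d : ℝ) - 3) / 2)) *
      ENNReal.ofReal (((1 - |x|) / 2) ^ (-(((d : ℝ) - 1) / 2 + s)) *
        min 1 ((1 - |x|) * L ^ 2)) ≤ ENNReal.ofReal A * (g (1 - x) + g (1 + x)) := by
    intro x hx
    have hx1 : |x| < 1 := abs_lt.2 hx
    obtain ⟨y, hy⟩ : ∃ y : ℝ, y = 1 - |x| := ⟨_, rfl⟩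
    have hy0 : 0 < y := by rw [hy]; linarith
    have hy1 : y ≤ 1 := by rw [hy]; linarith [abs_nonneg x]
    have hsq : 1 - x ^ 2 = y * (2 - y) := by
      rw [hy, ← sq_abs x]; ring
    have e1 : (1 - x ^ 2) ^ (((d : ℝ) - 3) / 2) ≤ y ^ (((d : ℝ) - 3) / 2) * (2 : ℝ) ^ (d : ℝ) := by
      rw [hsq, Real.mul_rpow hy0.le (by linarith)]
      refine mul_le_mul_of_nonneg_left ?_ (Real.rpow_nonneg hy0.le _)
      have hd0 : (0 : ℝ) ≤ d := Nat.cast_nonneg d
      refine (Real.rpow_le_rpow_of_exponent_le (by linarith) (by linarith : ((d : ℝ) - 3) / 2 ≤ d)).trans ?_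
      exact Real.rpow_le_rpow (by linarith) (by linarith) hd0
    have e2 : (y / 2) ^ (-p) = y ^ (-p) * 2 ^ p := by
      rw [Real.div_rpow hy0.le (by norm_num), Real.rpow_neg (by norm_num : (0:ℝ) ≤ 2)]
      rw [div_inv_eq_mul]
    have e3 : y ^ (((d : ℝ) - 3) / 2) * y ^ (-p) = y ^ (-1 - s) := by
      rw [← Real.rpow_add hy0]
      congr 1
      rw [hp]; ring
    have hm0 : 0 ≤ min 1 (y * L ^ 2) := le_min (by norm_num) (by positivity)
    have e4 : ENNReal.ofReal ((1 - x ^ 2) ^ (((d : ℝ) - 3) / 2)) *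
      ENNReal.ofReal ((y / 2) ^ (-p) * min 1 (y * L ^ 2)) ≤
        ENNReal.ofReal A * g y := by
      have hb0 : 0 ≤ (1 - x ^ 2) ^ (((d : ℝ) - 3) / 2) := by
        refine Real.rpow_nonneg ?_ _
        rw [hsq]
        exact mul_nonneg hy0.le (by linarith)
      rw [hg y hy0, ← ENNReal.ofReal_mul hb0, ← ENNReal.ofReal_mul hA0.le]
      refine ENNReal.ofReal_le_ofReal ?_
      have hc0 : 0 ≤ (y / 2) ^ (-p) * min 1 (y * L ^ 2) :=
        mul_nonneg (Real.rpow_nonneg (by linarith) _) hm0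
      calc (1 - x ^ 2) ^ (((d : ℝ) - 3) / 2) * ((y / 2) ^ (-p) * min 1 (y * L ^ 2)) ≤
            (y ^ (((d : ℝ) - 3) / 2) * (2 : ℝ) ^ (d : ℝ)) * ((y / 2) ^ (-p) * min 1 (y * L ^ 2)) :=
              mul_le_mul_of_nonneg_right e1 hc0
        _ = ((2 : ℝ) ^ (d : ℝ) * 2 ^ p) * ((y ^ (((d : ℝ) - 3) / 2) * y ^ (-p)) *
              min 1 (y * L ^ 2)) := by rw [e2]; ring
        _ = A * (y ^ (-1 - s) * min 1 (y * L ^ 2)) := by rw [e3, hA]
    rw [← hp, ← hy]
    refine e4.trans (mul_le_mul_right ?_ _)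
    rcases le_total 0 x with h | h
    · have : y = 1 - x := by rw [hy, abs_of_nonneg h]
      rw [this]
      exact le_self_add
    · have : y = 1 + x := by rw [hy, abs_of_nonpos h]; ring
      rw [this]
      exact le_add_self
  have hint : ∫⁻ x in Ioo (-1 : ℝ) 1, ENNReal.ofReal ((1 - x ^ 2) ^ (((d : ℝ) - 3) / 2)) *
      ENNReal.ofReal (((1 - |x|) / 2) ^ (-(((d : ℝ) - 1) / 2 + s)) *
        min 1 ((1 - |x|) * L ^ 2)) ≤
      ENNReal.ofReal (2 * (A * (1 / (1 - s) + 1 / s)) * L ^ (2 * s)) := by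
    refine (setLIntegral_mono' measurableSet_Ioo hpt).trans ?_
    refine (setLIntegral_le_lintegral _ _).trans ?_
    have hg1 : Measurable fun a : ℝ => g (1 - a) :=
      hgm.comp (measurable_const.sub measurable_id)
    rw [lintegral_const_mul' _ _ ENNReal.ofReal_ne_top, lintegral_add_left hg1,
      lintegral_sub_left_eq_self g 1, lintegral_add_left_eq_self g 1]
    have h1 : ∫⁻ y, g y ≤ ENNReal.ofReal ((1 / (1 - s) + 1 / s) * L ^ (2 * s)) := by
      rw [lintegral_indicator measurableSet_Ioi]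
      exact part3 hs hs1 hL
    have hR : 0 ≤ (1 / (1 - s) + 1 / s) * L ^ (2 * s) :=
      mul_nonneg hB0 (Real.rpow_nonneg hL0.le _)
    refine (mul_le_mul_right (add_le_add h1 h1) _).trans ?_
    rw [← ENNReal.ofReal_add hR hR, ← ENNReal.ofReal_mul hA0.le]
    refine ENNReal.ofReal_le_ofReal (le_of_eq ?_)
    ring
  refine (mul_le_mul_right hint κ).trans ?_
  have hκr : κ = ENNReal.ofReal κ.toReal := (ENNReal.ofReal_toReal hκ1).symm
  have hκn : 0 ≤ κ.toReal := ENNReal.toReal_nonneg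
  calc κ * ENNReal.ofReal (2 * (A * (1 / (1 - s) + 1 / s)) * L ^ (2 * s)) =
        ENNReal.ofReal κ.toReal * ENNReal.ofReal (2 * (A * (1 / (1 - s) + 1 / s)) *
          L ^ (2 * s)) := by rw [← hκr]
    _ = ENNReal.ofReal (κ.toReal * (2 * (A * (1 / (1 - s) + 1 / s))) * L ^ (2 * s)) := by
        rw [← ENNReal.ofReal_mul hκn, mul_assoc κ.toReal]
    _ ≤ _ := le_refl _

end Pool.Agent.H401.BZ
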